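import Pool.Agent.Helper128.WMN.Main

set_option autoImplicit false

namespace Pool.Agent.Helper128.RFW

open Pool.Agent.Helper128.WMN (WeakMaxN)

/-- periodic -/
def Per (G : Type) [Group G] : Prop := ∀ g : G, ∃ n : ℕ, 0 < n ∧ g ^ n = 1

/-- residually finite -/
def RF (G : Type) [Group G] : Prop := ∀ g : G, g ≠ 1 → ∃ N : Subgroup G, N.Normal ∧ N.index ≠ 0 ∧ g ∉ N

/-- every subgroup is finite or of finite index -/
def FinOrFI (G : Type) [Group G] : Prop := ∀ H : Subgroup G, Finite H ∨ H.index ≠ 0


section c_H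


theorem exists_H (G : Type) [Group G] (hInf : Infinite G)
    (hW : ∀ H : ℕ → Subgroup G, Antitone H →
        ∃ n : ℕ, ∀ m : ℕ, n ≤ m → ((H (m + 1)).subgroupOf (H m)).index ≠ 0) :
    ∃ H : Subgroup G, Infinite H ∧ ∀ L : Subgroup G, L ≤ H → Finite L ∨ L.relIndex H ≠ 0 := by
  by_contra hcon
  have step : ∀ K : {H : Subgroup G // Infinite H}, ∃ L : {H : Subgroup G // Infinite H},
      L.1 ≤ K.1 ∧ L.1.relIndex K.1 = 0 := by
    intro K
    by_contra h
    apply hcon
    refine ⟨K.1, K.2, fun L hL => ?_⟩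
    by_contra h2
    rw [not_or, not_finite_iff_infinite, not_not] at h2
    exact h ⟨⟨L, h2.1⟩, hL, h2.2⟩
  choose g hg1 hg2 using step
  have htop : Infinite (⊤ : Subgroup G) := by
    exact (Subgroup.topEquiv (G := G)).toEquiv.symm.infinite_iff.1 hInf
  let f : ℕ → {H : Subgroup G // Infinite H} := fun n => Nat.rec ⟨⊤, htop⟩ (fun _ K => g K) n
  obtain ⟨n, hn⟩ := hW (fun n => (f n).1) (antitone_nat_of_succ_le fun n => hg1 (f n))
  exact hn n le_rfl (hg2 (f n))


end c_H

section c_sub


theorem per_sub (G : Type) [Group G] (h : Per G) (H : Subgroup G) : Per H := by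
  intro g
  obtain ⟨n, hn, hg⟩ := h g.1
  exact ⟨n, hn, Subtype.ext (by simpa using hg)⟩

theorem rf_sub (G : Type) [Group G] (h : RF G) (H : Subgroup G) : RF H := by
  intro g hg
  have hg' : g.1 ≠ 1 := fun e => hg (Subtype.ext e)
  obtain ⟨N, hN, hi, hgN⟩ := h g.1 hg'
  refine ⟨N.subgroupOf H, inferInstance, ?_, ?_⟩
  · haveI : N.FiniteIndex := ⟨hi⟩
    exact (inferInstance : (N.subgroupOf H).FiniteIndex).index_ne_zero
  · rw [Subgroup.mem_subgroupOf]
    exact hgN

theorem ff_sub (G : Type) [Group G] (h : FinOrFI G) (H : Subgroup G) : FinOrFI H := by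
  intro L
  rcases h (L.map H.subtype) with h1 | h1
  · left
    have e := (L.equivMapOfInjective H.subtype H.subtype_injective)
    exact Finite.of_equiv _ e.toEquiv.symm
  · right
    haveI : (L.map H.subtype).FiniteIndex := ⟨h1⟩
    have e : (L.map H.subtype).subgroupOf H = L := by
      rw [Subgroup.subgroupOf]
      exact Subgroup.comap_map_eq_self_of_injective H.subtype_injective L
    have := (inferInstance : ((L.map H.subtype).subgroupOf H).FiniteIndex).index_ne_zero
    rwa [e] at this


end c_sub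

section c_ab


theorem ab_fin
    (hrf : ∀ (B : Type) [CommGroup B], WeakMaxN B → (∀ b : B, ∃ n : ℕ, 0 < n ∧ b ^ n = 1) →
      (∀ b : B, b ≠ 1 → ∃ N : Subgroup B, N.index ≠ 0 ∧ b ∉ N) → Finite B)
    (G : Type) [Group G] (hP : Per G) (hR : RF G) (hF : FinOrFI G) (A : Subgroup G)
    (hab : ∀ a ∈ A, ∀ b ∈ A, a * b = b * a) : Finite A := by
  have hW : WeakMaxN ↥A := by
    intro f _ hmono
    have hle : ∀ n, f n ≤ f (n + 1) := fun n => hmono (Nat.le_succ n)
    by_cases h : ∃ n₀, (f n₀).index ≠ 0
    · obtain ⟨n₀, hn₀⟩ := h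
      refine ⟨n₀, fun n hn => ?_⟩
      have h1 : (f n).index ≠ 0 := fun h0 =>
        hn₀ (Nat.eq_zero_of_zero_dvd (h0 ▸ Subgroup.index_dvd_of_le (hmono hn)))
      have h2 : (f n).relIndex (f (n + 1)) * (f (n + 1)).index = (f n).index :=
        Subgroup.relIndex_mul_index (hle n)
      intro h3
      have h4 : (f n).relIndex (f (n + 1)) = 0 := h3
      rw [h4, zero_mul] at h2
      exact h1 h2.symm
    · push Not at h
      have hfin : ∀ n, Finite (f n) := by
        intro n
        rcases hF ((f n).map A.subtype) with h1 | h1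
        · haveI := h1
          exact Finite.of_equiv _
            ((f n).equivMapOfInjective A.subtype A.subtype_injective).symm.toEquiv
        · exfalso
          have h2 : (f n).map A.subtype ≤ A := by
            rintro x ⟨y, -, rfl⟩
            exact y.2
          have h3 := Subgroup.relIndex_mul_index h2
          have h4 : ((f n).map A.subtype).relIndex A = (f n).index := by
            change (((f n).map A.subtype).subgroupOf A).index = (f n).index
            rw [Subgroup.subgroupOf, Subgroup.comap_map_eq_self_of_injective A.subtype_injective]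
          rw [h4, h n, zero_mul] at h3
          exact h1 h3.symm
      refine ⟨0, fun n _ => ?_⟩
      haveI := hfin (n + 1)
      exact Subgroup.index_ne_zero_of_finite
  have h2 : ∀ b : ↥A, ∃ n : ℕ, 0 < n ∧ b ^ n = 1 := by
    intro b
    obtain ⟨n, hn, h⟩ := hP b
    exact ⟨n, hn, Subtype.ext h⟩
  have h3 : ∀ b : ↥A, b ≠ 1 → ∃ N : Subgroup ↥A, N.index ≠ 0 ∧ b ∉ N := by
    intro b hb
    obtain ⟨N, -, hN, hbN⟩ := hR b (fun h => hb (Subtype.ext h))
    haveI : N.FiniteIndex := ⟨hN⟩
    refine ⟨N.subgroupOf A, ?_, fun h => hbN (Subgroup.mem_subgroupOf.1 h)⟩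
    exact (inferInstance : (N.subgroupOf A).FiniteIndex).index_ne_zero
  exact @hrf ↥A { (inferInstance : Group ↥A) with
    mul_comm := fun a b => Subtype.ext (hab a a.2 b b.2) } hW h2 h3


end c_ab

section c_fc


theorem fc_index_of_le {G : Type} [Group G] {H K : Subgroup G} (h : H ≤ K) (hH : H.index ≠ 0) :
    K.index ≠ 0 := by
  haveI : H.FiniteIndex := ⟨hH⟩
  exact (Subgroup.finiteIndex_of_le h).index_ne_zero

theorem fc_cent {G : Type} [Group G] (S : Set G) (hS : S.Finite)
    (h : ∀ x ∈ S, (Subgroup.centralizer {x}).index ≠ 0) : (Subgroup.centralizer S).index ≠ 0 := by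
  induction S, hS using Set.Finite.induction_on with
  | empty =>
    have : Subgroup.centralizer (∅ : Set G) = ⊤ := by
      rw [eq_top_iff]
      intro x _
      rw [Subgroup.mem_centralizer_iff]
      intro y hy
      exact absurd hy (Set.notMem_empty y)
    rw [this, Subgroup.index_top]
    exact one_ne_zero
  | @insert a S _ _ ih =>
    refine fc_index_of_le (H := Subgroup.centralizer {a} ⊓ Subgroup.centralizer S) ?_
      (Subgroup.index_inf_ne_zero (h a (Set.mem_insert _ _))
        (ih (fun x hx => h x (Set.mem_insert_of_mem _ hx))))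
    intro x hx
    rw [Subgroup.mem_centralizer_iff]
    intro y hy
    rcases Set.mem_insert_iff.1 hy with h1 | h1
    · exact Subgroup.mem_centralizer_iff.1 hx.1 y (by rw [h1]; exact Set.mem_singleton _)
    · exact Subgroup.mem_centralizer_iff.1 hx.2 y h1

theorem fc_finite (G : Type) [Group G] (hF : FinOrFI G)
    (hab : ∀ A : Subgroup G, (∀ a ∈ A, ∀ b ∈ A, a * b = b * a) → Finite A) :
    Set.Finite {x : G | (Subgroup.centralizer {x}).index ≠ 0} := by
  by_contra hinf
  let Fs : Subgroup G :=
    { carrier := {x : G | (Subgroup.centralizer {x}).index ≠ 0}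
      one_mem' := by
        have : Subgroup.centralizer ({1} : Set G) = ⊤ := by
          rw [eq_top_iff]
          intro x _
          rw [Subgroup.mem_centralizer_iff]
          intro y hy
          rw [Set.mem_singleton_iff.1 hy, one_mul, mul_one]
        show (Subgroup.centralizer ({1} : Set G)).index ≠ 0
        rw [this, Subgroup.index_top]
        exact one_ne_zero
      mul_mem' := by
        intro x y hx hy
        refine fc_index_of_le (H := Subgroup.centralizer {x} ⊓ Subgroup.centralizer {y}) ?_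
          (Subgroup.index_inf_ne_zero hx hy)
        intro z hz
        rw [Subgroup.mem_centralizer_iff]
        intro w hw
        rw [Set.mem_singleton_iff.1 hw]
        have h1 := Subgroup.mem_centralizer_iff.1 hz.1 x (Set.mem_singleton _)
        have h2 := Subgroup.mem_centralizer_iff.1 hz.2 y (Set.mem_singleton _)
        rw [mul_assoc, h2, ← mul_assoc, h1, mul_assoc]
      inv_mem' := by
        intro x hx
        refine fc_index_of_le (H := Subgroup.centralizer {x}) ?_ hx
        intro z hz
        rw [Subgroup.mem_centralizer_iff]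
        intro w hw
        rw [Set.mem_singleton_iff.1 hw]
        have h1 := Subgroup.mem_centralizer_iff.1 hz x (Set.mem_singleton _)
        exact (show Commute x z from h1).inv_left.eq }
  have hFsmem : ∀ x, x ∈ Fs ↔ (Subgroup.centralizer {x}).index ≠ 0 := fun x => Iff.rfl
  have hFs : Fs.index ≠ 0 := by
    rcases hF Fs with h | h
    · exfalso
      apply hinf
      exact Set.toFinite (Fs : Set G)
    · exact h
  obtain ⟨S, hSmax⟩ := zorn_subset {S : Set G | S ⊆ (Fs : Set G) ∧ ∀ a ∈ S, ∀ b ∈ S, a * b = b * a} (by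
    intro c hc hch
    refine ⟨⋃₀ c, ⟨Set.sUnion_subset (fun s hs => (hc hs).1), ?_⟩, fun s hs => Set.subset_sUnion_of_mem hs⟩
    rintro a ⟨s, hs, has⟩ b ⟨t, ht, hbt⟩
    rcases hch.total hs ht with h | h
    · exact (hc ht).2 a (h has) b hbt
    · exact (hc hs).2 a has b (h hbt))
  have hS := hSmax.prop
  have hScent : Subgroup.closure S ≤ Subgroup.centralizer S := by
    rw [Subgroup.closure_le]
    intro x hx
    rw [SetLike.mem_coe, Subgroup.mem_centralizer_iff]
    intro y hy
    exact hS.2 y hy x hx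
  have hSfin : S.Finite := by
    haveI : Finite (Subgroup.closure S) := by
      apply hab
      intro a ha b hb
      have h1 := Subgroup.closure_le_centralizer_centralizer S ha
      exact (Subgroup.mem_centralizer_iff.1 h1 b (hScent hb)).symm
    exact Set.Finite.subset (Set.toFinite (Subgroup.closure S : Set G)) Subgroup.subset_closure
  have hD : (Fs ⊓ Subgroup.centralizer S).index ≠ 0 :=
    Subgroup.index_inf_ne_zero hFs (fc_cent S hSfin (fun x hx => hS.1 hx))
  have hex : ∃ x ∈ Fs ⊓ Subgroup.centralizer S, x ∉ S := by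
    by_contra hno
    push Not at hno
    apply hinf
    have h1 : ((Fs ⊓ Subgroup.centralizer S : Subgroup G) : Set G).Finite := hSfin.subset hno
    haveI : Finite (Fs ⊓ Subgroup.centralizer S : Subgroup G) := h1.to_subtype
    have h2 : Nat.card G ≠ 0 := by
      rw [← Subgroup.card_mul_index (Fs ⊓ Subgroup.centralizer S)]
      exact mul_ne_zero Nat.card_pos.ne' hD
    haveI : Finite G := Nat.finite_of_card_ne_zero h2
    exact Set.toFinite _
  obtain ⟨x, hx, hxS⟩ := hex
  apply hxS
  have hins : insert x S ∈ {S : Set G | S ⊆ (Fs : Set G) ∧ ∀ a ∈ S, ∀ b ∈ S, a * b = b * a} := by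
    refine ⟨Set.insert_subset hx.1 hS.1, ?_⟩
    intro a ha b hb
    rcases Set.mem_insert_iff.1 ha with h1 | h1
    · rcases Set.mem_insert_iff.1 hb with h2 | h2
      · rw [h1, h2]
      · rw [h1]; exact (Subgroup.mem_centralizer_iff.1 hx.2 b h2).symm
    · rcases Set.mem_insert_iff.1 hb with h2 | h2
      · rw [h2]; exact Subgroup.mem_centralizer_iff.1 hx.2 a h1
      · exact hS.2 a h1 b h2
  exact hSmax.le_of_ge hins (Set.subset_insert x S) (Set.mem_insert x S)


end c_fc

section c_K


theorem exists_K (G : Type) [Group G] (hR : RF G) (hF : FinOrFI G)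
    (hfc : Set.Finite {x : G | (Subgroup.centralizer {x}).index ≠ 0}) :
    ∃ K : Subgroup G, K.Normal ∧ K.index ≠ 0 ∧ ∀ x ∈ K, x ≠ 1 → Set.Finite {y : G | y * x = x * y} := by
  classical
  have key : ∀ S : Finset G, (∀ x ∈ S, x ≠ 1) →
      ∃ K : Subgroup G, K.Normal ∧ K.index ≠ 0 ∧ ∀ x ∈ S, x ∉ K := by
    intro S
    refine Finset.induction_on S ?_ ?_
    · intro _
      exact ⟨⊤, inferInstance, by simp, by simp⟩
    · intro a s _ ih hS
      obtain ⟨K, hK1, hK2, hK3⟩ := ih (fun x hx => hS x (Finset.mem_insert_of_mem hx))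
      obtain ⟨N, hN1, hN2, hN3⟩ := hR a (hS a (Finset.mem_insert_self _ _))
      refine ⟨K ⊓ N, inferInstance, Subgroup.index_inf_ne_zero hK2 hN2, ?_⟩
      intro x hx hxK
      rw [Finset.mem_insert] at hx
      rcases hx with rfl | hx
      · exact hN3 hxK.2
      · exact hK3 x hx hxK.1
  obtain ⟨K, hK1, hK2, hK3⟩ := key (hfc.toFinset.erase 1) (fun x hx => Finset.ne_of_mem_erase hx)
  refine ⟨K, hK1, hK2, fun x hx hx1 => ?_⟩
  have h1 : ¬ (Subgroup.centralizer {x}).index ≠ 0 := by
    intro h
    exact hK3 x (Finset.mem_erase.mpr ⟨hx1, hfc.mem_toFinset.mpr h⟩) hx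
  have h2 : Finite (Subgroup.centralizer {x}) := (hF _).resolve_right h1
  have h3 : {y : G | y * x = x * y} = (Subgroup.centralizer {x} : Set G) := by
    ext y
    rw [SetLike.mem_coe, Subgroup.mem_centralizer_singleton_iff]
    rfl
  rw [h3]
  exact Set.toFinite _


end c_K

section c_inv


theorem conj_pow_aux {G : Type} [Group G] (i a : G) (hi : i ^ 2 = 1) (h : i * a * i = a⁻¹) (k : ℕ) :
    i * a ^ k * i = (a ^ k)⁻¹ := by
  have hii : i * i = 1 := by rw [← sq]; exact hi
  have hinv : i⁻¹ = i := inv_eq_of_mul_eq_one_left hii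
  have h1 : i * a * i⁻¹ = a⁻¹ := by rw [hinv]; exact h
  have h2 : i * a ^ k * i⁻¹ = (a ^ k)⁻¹ := by
    rw [← conj_pow, h1, inv_pow]
  rw [hinv] at h2
  exact h2

theorem inv_a (G : Type) [Group G] (hP : Per G) (N : Subgroup G) (hN : N.Normal) (i : G) (hi : i ^ 2 = 1)
    (hi1 : i ≠ 1) (hC : ∀ y ∈ N, y * i = i * y → y = 1) (j : G) (hj : j ∈ N) (hj2 : j ^ 2 = 1) : j = 1 := by
  have hii : i * i = 1 := by rw [← sq]; exact hi
  have hjj : j * j = 1 := by rw [← sq]; exact hj2
  have hinv : i⁻¹ = i := inv_eq_of_mul_eq_one_left hii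
  have hjinv : j⁻¹ = j := inv_eq_of_mul_eq_one_left hjj
  set a : G := j * (i * j * i) with ha
  have hiji : i * j * i ∈ N := by
    have := hN.conj_mem j hj i
    rwa [hinv] at this
  have haN : a ∈ N := N.mul_mem hj hiji
  have hainv : a⁻¹ = i * j * i * j := by
    rw [ha]
    simp only [mul_inv_rev, hinv, hjinv]
    group
  have hia : i * a * i = a⁻¹ := by
    rw [hainv, ha]
    calc i * (j * (i * j * i)) * i = i * j * i * j * (i * i) := by group
      _ = i * j * i * j := by rw [hii, mul_one]
  have hja : j * a * j = a⁻¹ := by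
    rw [hainv, ha]
    calc j * (j * (i * j * i)) * j = (j * j) * (i * j * i * j) := by group
      _ = i * j * i * j := by rw [hjj, one_mul]
  have hfo : 0 < orderOf a := by
    obtain ⟨n, hn, hn1⟩ := hP a
    exact orderOf_pos_iff.2 (isOfFinOrder_iff_pow_eq_one.2 ⟨n, hn, hn1⟩)
  rcases Nat.even_or_odd' (orderOf a) with ⟨k, hk | hk⟩
  · exfalso
    have hk0 : 0 < k := by omega
    have hz : i * a ^ k * i = (a ^ k)⁻¹ := conj_pow_aux i a hi hia k
    have hz2 : a ^ k * a ^ k = 1 := by
      rw [← pow_add, ← two_mul, ← hk, pow_orderOf_eq_one]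
    have hz3 : (a ^ k)⁻¹ = a ^ k := inv_eq_of_mul_eq_one_left hz2
    rw [hz3] at hz
    have hcomm : a ^ k * i = i * a ^ k := by
      calc a ^ k * i = (i * a ^ k * i) * i := by rw [hz]
        _ = i * a ^ k * (i * i) := by group
        _ = i * a ^ k := by rw [hii, mul_one]
    have h1 := hC _ (N.pow_mem haN k) hcomm
    have h2 : orderOf a ≤ k := orderOf_le_of_pow_eq_one hk0 h1
    omega
  · have hpm : a ^ (2 * k + 1) = 1 := by rw [← hk, pow_orderOf_eq_one]
    set c : G := a ^ (k + 1) with hc
    have hcc : c * c = a := by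
      rw [hc, ← pow_add]
      have : k + 1 + (k + 1) = (2 * k + 1) + 1 := by ring
      rw [this, pow_succ, hpm, one_mul]
    have hic : i * c * i = c⁻¹ := conj_pow_aux i a hi hia (k + 1)
    have hjc : j * c * j = c⁻¹ := conj_pow_aux j a hj2 hja (k + 1)
    have hc1 : c ^ (2 * k + 1) = 1 := by
      rw [hc, ← pow_mul, mul_comm, pow_mul, hpm, one_pow]
    set d : G := c ^ (k + 1) with hd
    have hdd : d * d = c := by
      rw [hd, ← pow_add]
      have : k + 1 + (k + 1) = (2 * k + 1) + 1 := by ring
      rw [this, pow_succ, hc1, one_mul]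
    have hid : i * d * i = d⁻¹ := conj_pow_aux i c hi hic (k + 1)
    have hja2 : j * a = i * j * i := by
      rw [ha]
      calc j * (j * (i * j * i)) = (j * j) * (i * j * i) := by group
        _ = i * j * i := by rw [hjj, one_mul]
    -- c⁻¹ j c = i j i
    have hjc' : j * c⁻¹ * j = c := by
      have := congrArg Inv.inv hjc
      simp only [mul_inv_rev, hjinv, inv_inv] at this
      rw [mul_assoc]
      exact this
    have h3 : c⁻¹ * j * c = i * j * i := by
      rw [← hja2]
      calc c⁻¹ * j * c = (j * j) * (c⁻¹ * j * c) := by rw [hjj, one_mul]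
        _ = j * (j * c⁻¹ * j) * c := by group
        _ = j * c * c := by rw [hjc']
        _ = j * (c * c) := by group
        _ = j * a := by rw [hcc]
    -- c i commutes with j
    have h4 : j * (c * i) = (c * i) * j := by
      calc j * (c * i) = c * (c⁻¹ * j * c) * i := by group
        _ = c * (i * j * i) * i := by rw [h3]
        _ = c * i * j * (i * i) := by group
        _ = (c * i) * j := by rw [hii, mul_one]
    have hid' : i * d⁻¹ * i = d := by
      have := congrArg Inv.inv hid
      simp only [mul_inv_rev, hinv, inv_inv] at this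
      rw [mul_assoc]
      exact this
    have h5 : d * i * d⁻¹ = c * i := by
      calc d * i * d⁻¹ = d * i * d⁻¹ * (i * i) := by rw [hii, mul_one]
        _ = d * (i * d⁻¹ * i) * i := by group
        _ = d * d * i := by rw [hid']
        _ = c * i := by rw [hdd]
    have hyN : d⁻¹ * j * d ∈ N := by
      have := hN.conj_mem j hj d⁻¹
      rwa [inv_inv] at this
    have hy : (d⁻¹ * j * d) * i = i * (d⁻¹ * j * d) := by
      calc (d⁻¹ * j * d) * i = d⁻¹ * (j * (d * i * d⁻¹)) * d := by group
        _ = d⁻¹ * (j * (c * i)) * d := by rw [h5]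
        _ = d⁻¹ * ((c * i) * j) * d := by rw [h4]
        _ = d⁻¹ * ((d * i * d⁻¹) * j) * d := by rw [h5]
        _ = i * (d⁻¹ * j * d) := by group
    have h6 := hC _ hyN hy
    calc j = d * (d⁻¹ * j * d) * d⁻¹ := by group
      _ = 1 := by rw [h6]; group

theorem inv_b (G : Type) [Group G] (hP : Per G) (N : Subgroup G) (hN : N.Normal) (i : G) (hi : i ^ 2 = 1)
    (hC : ∀ y ∈ N, y * i = i * y → y = 1) (hno : ∀ j ∈ N, j ^ 2 = 1 → j = 1) (x : G) (hx : x ∈ N) :
    i * x * i = x⁻¹ := by
  have hii : i * i = 1 := by rw [← sq]; exact hi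
  have hinv : i⁻¹ = i := inv_eq_of_mul_eq_one_left hii
  have hixi : i * x * i ∈ N := by
    have := hN.conj_mem x hx i
    rwa [hinv] at this
  set u : G := x⁻¹ * (i * x * i) with hu
  have huN : u ∈ N := N.mul_mem (N.inv_mem hx) hixi
  have huinv : u⁻¹ = i * x⁻¹ * i * x := by
    rw [hu]
    simp only [mul_inv_rev, hinv, inv_inv]
    group
  have hiu : i * u * i = u⁻¹ := by
    rw [huinv, hu]
    calc i * (x⁻¹ * (i * x * i)) * i = i * x⁻¹ * i * x * (i * i) := by group
      _ = i * x⁻¹ * i * x := by rw [hii, mul_one]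
  have hfo : 0 < orderOf u := by
    obtain ⟨n, hn, hn1⟩ := hP u
    exact orderOf_pos_iff.2 (isOfFinOrder_iff_pow_eq_one.2 ⟨n, hn, hn1⟩)
  rcases Nat.even_or_odd' (orderOf u) with ⟨k, hk | hk⟩
  · exfalso
    have hk0 : 0 < k := by omega
    have hz2 : (u ^ k) ^ 2 = 1 := by
      rw [← pow_mul, mul_comm, ← hk, pow_orderOf_eq_one]
    have h1 := hno _ (N.pow_mem huN k) hz2
    have h2 : orderOf u ≤ k := orderOf_le_of_pow_eq_one hk0 h1
    omega
  · have hpm : u ^ (2 * k + 1) = 1 := by rw [← hk, pow_orderOf_eq_one]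
    set v : G := u ^ (k + 1) with hv
    have hvN : v ∈ N := N.pow_mem huN _
    have hvv : v * v = u := by
      rw [hv, ← pow_add]
      have : k + 1 + (k + 1) = (2 * k + 1) + 1 := by ring
      rw [this, pow_succ, hpm, one_mul]
    have hiv : i * v * i = v⁻¹ := conj_pow_aux i u hi hiu (k + 1)
    have hxu : x * u = i * x * i := by rw [hu]; group
    have hy : (x * v) * i = i * (x * v) := by
      have h1 : i * (x * v) * i = x * v := by
        calc i * (x * v) * i = i * x * (i * i) * v * i := by rw [hii]; group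
          _ = (i * x * i) * (i * v * i) := by group
          _ = (x * u) * v⁻¹ := by rw [← hxu, hiv]
          _ = x * (v * v) * v⁻¹ := by rw [hvv]
          _ = x * v := by group
      calc (x * v) * i = (i * (x * v) * i) * i := by rw [h1]
        _ = i * (x * v) * (i * i) := by group
        _ = i * (x * v) := by rw [hii, mul_one]
    have h6 := hC _ (N.mul_mem hx hvN) hy
    have hxv : x = v⁻¹ := eq_inv_of_mul_eq_one_left h6
    have hiv' : i * v⁻¹ * i = v := by
      have := congrArg Inv.inv hiv
      simp only [mul_inv_rev, hinv, inv_inv] at this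
      rw [mul_assoc]
      exact this
    rw [hxv, inv_inv]
    exact hiv'

theorem no_inv (G : Type) [Group G] (hInf : Infinite G) (hP : Per G) (hR : RF G)
    (hab : ∀ A : Subgroup G, (∀ a ∈ A, ∀ b ∈ A, a * b = b * a) → Finite A)
    (i : G) (hi : i ^ 2 = 1) (hi1 : i ≠ 1) (hC : Set.Finite {y : G | y * i = i * y}) : False := by
  classical
  have hii : i * i = 1 := by rw [← sq]; exact hi
  have hch : ∀ y : G, ∃ N : Subgroup G, N.Normal ∧ N.index ≠ 0 ∧ (y ≠ 1 → y ∉ N) := by
    intro y
    by_cases hy : y = 1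
    · exact ⟨⊤, inferInstance, by simp, fun h => absurd hy h⟩
    · obtain ⟨N, h1, h2, h3⟩ := hR y hy
      exact ⟨N, h1, h2, fun _ => h3⟩
  choose M hM1 hM2 hM3 using hch
  haveI : Finite {y : G | y * i = i * y} := hC
  let N : Subgroup G := ⨅ y : {y : G | y * i = i * y}, M y.1
  have hNn : N.Normal := Subgroup.normal_iInf_normal fun y => hM1 y.1
  have hNi : N.index ≠ 0 := Subgroup.index_iInf_ne_zero fun y => hM2 y.1
  have hCN : ∀ y ∈ N, y * i = i * y → y = 1 := by
    intro y hy hyi
    by_contra hne
    have h1 : y ∈ M y := by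
      have := (Subgroup.mem_iInf.1 hy) ⟨y, hyi⟩
      exact this
    exact hM3 y hne h1
  have hno : ∀ j ∈ N, j ^ 2 = 1 → j = 1 := fun j hj hj2 =>
    inv_a G hP N hNn i hi hi1 hCN j hj hj2
  have hb : ∀ x ∈ N, i * x * i = x⁻¹ := fun x hx => inv_b G hP N hNn i hi hCN hno x hx
  have hcomm : ∀ a ∈ N, ∀ b ∈ N, a * b = b * a := by
    intro a ha b hb'
    have h1 := hb (a * b) (N.mul_mem ha hb')
    have h2 : i * (a * b) * i = (i * a * i) * (i * b * i) := by
      calc i * (a * b) * i = i * a * 1 * b * i := by group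
        _ = i * a * (i * i) * b * i := by rw [hii]
        _ = (i * a * i) * (i * b * i) := by group
    rw [h2, hb a ha, hb b hb', mul_inv_rev] at h1
    have h3 := congrArg Inv.inv h1
    simpa using h3.symm
  have hfin : Finite N := hab N hcomm
  have : Finite G := by
    haveI : N.FiniteIndex := ⟨hNi⟩
    have h1 : Nat.card G ≠ 0 := by
      rw [← N.card_mul_index]
      exact Nat.mul_ne_zero (Nat.card_pos (α := N)).ne' hNi
    exact Nat.finite_of_card_ne_zero h1
  exact not_finite G


end c_inv
theorem main (G : Type) [Group G] (hP : Per G) (hR : RF G) (hInf : Infinite G)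
    (hW : ∀ H : ℕ → Subgroup G, Antitone H →
        ∃ n : ℕ, ∀ m : ℕ, n ≤ m → ((H (m + 1)).subgroupOf (H m)).index ≠ 0) :
    ∃ K : Subgroup G, Infinite K ∧ (∀ x ∈ K, x ^ 2 = 1 → x = 1) ∧
      (∀ L : Subgroup G, L ≤ K → Finite L ∨ L.relIndex K ≠ 0) ∧
      (∀ x ∈ K, x ≠ 1 → Set.Finite {y : G | y ∈ K ∧ y * x = x * y}) ∧
      (∀ A : Subgroup G, A ≤ K → (∀ a ∈ A, ∀ b ∈ A, a * b = b * a) → Finite A) := by
  obtain ⟨H, hHi, hH⟩ := exists_H G hInf hW
  have hPH := per_sub G hP H
  have hRH := rf_sub G hR H
  have hFH : FinOrFI H := by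
    intro L
    rcases hH (L.map H.subtype) (Subgroup.map_subtype_le L) with h | h
    · left
      have hinj : Function.Injective (fun x : L => (⟨H.subtype x, Subgroup.mem_map_of_mem _ x.2⟩ : L.map H.subtype)) := by
        intro a b hab
        have := congrArg Subtype.val hab
        exact Subtype.ext (Subtype.ext this)
      exact Finite.of_injective _ hinj
    · right
      have h2 : (L.map H.subtype).subgroupOf H = L :=
        Subgroup.comap_map_eq_self_of_injective H.subtype_injective L
      rw [Subgroup.relIndex, h2] at h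
      exact h
  have habH : ∀ A : Subgroup H, (∀ a ∈ A, ∀ b ∈ A, a * b = b * a) → Finite A :=
    fun A hA => ab_fin (fun B _ h1 h2 h3 => Pool.Agent.Helper128.WMN.rf_torsion_finite B h1 h2 h3) H hPH hRH hFH A hA
  obtain ⟨K, hKn, hKi, hK⟩ := exists_K H hRH hFH (fc_finite H hFH habH)
  have hKinf : Infinite K := by
    by_contra hfin
    rw [not_infinite_iff_finite] at hfin
    have h1 := K.card_mul_index
    have h2 : Nat.card H ≠ 0 := by
      rw [← h1]
      exact Nat.mul_ne_zero Nat.card_pos.ne' hKi
    have := Nat.finite_of_card_ne_zero h2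
    exact not_finite H
  have habK : ∀ A : Subgroup K, (∀ a ∈ A, ∀ b ∈ A, a * b = b * a) → Finite A := by
    intro A hA
    have h1 : Finite (A.map K.subtype) := by
      apply habH
      rintro _ ⟨a, ha, rfl⟩ _ ⟨b, hb, rfl⟩
      have := congrArg K.subtype (hA a ha b hb)
      simpa using this
    have hinj : Function.Injective (fun x : A => (⟨K.subtype x, Subgroup.mem_map_of_mem _ x.2⟩ : A.map K.subtype)) := by
      intro a b hab
      have := congrArg Subtype.val hab
      exact Subtype.ext (Subtype.ext this)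
    exact Finite.of_injective _ hinj
  have hnoK : ∀ x : K, x ^ 2 = 1 → x = 1 := by
    intro x hx
    by_contra hx1
    refine no_inv K hKinf (per_sub H hPH K) (rf_sub H hRH K) habK x hx hx1 ?_
    have h1 := hK x x.2 (fun h => hx1 (Subtype.ext h))
    refine Set.Finite.of_finite_image (f := Subtype.val) (h1.subset ?_) (Subtype.val_injective.injOn)
    rintro _ ⟨y, hy, rfl⟩
    exact congrArg Subtype.val hy
  refine ⟨K.map H.subtype, ?_, ?_, ?_, ?_, ?_⟩
  · have : Function.Injective (fun x : K => (⟨H.subtype x, Subgroup.mem_map_of_mem _ x.2⟩ : K.map H.subtype)) := by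
      intro a b hab
      have := congrArg Subtype.val hab
      exact Subtype.ext (Subtype.ext this)
    exact Infinite.of_injective _ this
  · rintro _ ⟨x, hx, rfl⟩ h2
    have h3 : (⟨x, hx⟩ : K) ^ 2 = 1 := by
      apply Subtype.ext; apply Subtype.ext
      simpa using h2
    have h4 := hnoK _ h3
    have h5 := congrArg Subtype.val h4
    simp only [Subgroup.coe_one] at h5
    rw [h5]; simp
  · intro L hL
    have hLH : L ≤ H := hL.trans (Subgroup.map_subtype_le K)
    rcases hFH (L.subgroupOf H) with h | h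
    · left
      have hinj : Function.Injective (fun x : L => (⟨⟨x, hLH x.2⟩, Subgroup.mem_subgroupOf.mpr x.2⟩ : L.subgroupOf H)) := by
        intro a b hab
        have := congrArg (fun z : L.subgroupOf H => ((z : H) : G)) hab
        exact Subtype.ext this
      exact Finite.of_injective _ hinj
    · right
      have h1 : (L.subgroupOf H).relIndex K ≠ 0 := by
        intro h0
        have h3 := Subgroup.relIndex_eq_zero_of_le_right (le_top : K ≤ ⊤) h0
        rw [Subgroup.relIndex_top_right] at h3
        exact h h3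
      have h2 : L.relIndex (K.map H.subtype) = (L.comap H.subtype).relIndex K :=
        (Subgroup.relIndex_comap L H.subtype K).symm
      rw [h2]
      exact h1
  · rintro _ ⟨x, hx, rfl⟩ hx1
    have h1 := hK x hx (fun h => hx1 (by rw [h]; simp))
    refine (h1.image H.subtype).subset ?_
    rintro _ ⟨⟨y, hy, rfl⟩, hc⟩
    refine ⟨y, ?_, rfl⟩
    exact Subtype.ext (by simpa using hc)
  · intro A hA hab
    have hAH : A ≤ H := hA.trans (Subgroup.map_subtype_le K)
    have h1 : Finite (A.subgroupOf H) := by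
      apply habH
      intro a ha b hb
      exact Subtype.ext (by simpa using hab a ha b hb)
    have hinj : Function.Injective (fun x : A => (⟨⟨x, hAH x.2⟩, Subgroup.mem_subgroupOf.mpr x.2⟩ : A.subgroupOf H)) := by
      intro a b hab'
      have := congrArg (fun z : A.subgroupOf H => ((z : H) : G)) hab'
      exact Subtype.ext this
    exact Finite.of_injective _ hinj

end Pool.Agent.Helper128.RFW
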